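import Mathlib
import Pool.Agent.Lib.MP_9486b1_co.Asymp

set_option autoImplicit false

namespace Pool.Agent.Results.MP_9486b1_co.Theta

open Pool.Agent.Lib.MP_9486b1_co Filter Asymptotics

theorem result :
    Asymptotics.IsTheta Filter.atTop (fun n : ℕ => (ex n : ℝ))
      (fun n : ℕ => (n : ℝ) * (Real.log n / Real.log (Real.log n)) ^ 2) := by
  have hev : ∀ᶠ n : ℕ in atTop, 256 ≤ Real.log n :=
    (Real.tendsto_log_atTop.comp tendsto_natCast_atTop_atTop).eventually_ge_atTop 256
  constructor
  · refine IsBigO.of_bound 216 ?_
    filter_upwards [hev] with n hn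
    rw [Real.norm_of_nonneg (by positivity), Real.norm_of_nonneg (by positivity)]
    exact upper_asymp hn
  · refine IsBigO.of_bound 2400 ?_
    filter_upwards [hev] with n hn
    rw [Real.norm_of_nonneg (by positivity), Real.norm_of_nonneg (by positivity)]
    exact lower_asymp hn

end Pool.Agent.Results.MP_9486b1_co.Theta
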